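import Pool.Agent.Helper8.DE.Defs

set_option autoImplicit false

open scoped Manifold ContDiff

namespace Pool.Agent.Helper56.DE

open Pool.Agent.Helper8.DC Pool.Agent.Helper8.DA Pool.Agent.Helper8.DE

theorem crossMat_apply (a : R3) (r t : Fin 3) :
    crossMat a r t = crossProduct a (Pi.single t 1) r := rfl

/-- E3a -/
theorem crossMat_skew (a : R3) (r t : Fin 3) : crossMat a r t = -crossMat a t r := by
  simp only [crossMat_apply]
  fin_cases r <;> fin_cases t <;> simp [cross_apply]

/-- E3b -/
theorem crossMat_smooth {U : Set E4} {A : E4 → Fin 4 → R3} (hA : ContDiffOn ℝ ∞ A U) (m : Fin 4)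
    (r t : Fin 3) : ContDiffOn ℝ ∞ (fun y => crossMat (A y m) r t) U := by
  have hAc : ∀ a, ContDiffOn ℝ ∞ (fun z => A z m a) U := fun a =>
    (contDiffOn_pi.1 ((contDiffOn_pi.1 hA) m)) a
  have h := sm_cross ((contDiffOn_pi.1 hA) m)
    (contDiffOn_const (c := (Pi.single t 1 : R3)) (s := U) (𝕜 := ℝ) (n := ∞))
  exact (contDiffOn_pi.1 h) r

/-- E3c -/
theorem crossMat_comm (a b : R3) :
    crossMat a * crossMat b - crossMat b * crossMat a = crossMat (crossProduct a b) := by
  ext r t
  simp only [Matrix.sub_apply, Matrix.mul_apply, Fin.sum_univ_three, crossMat_apply]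
  fin_cases r <;> fin_cases t <;> simp [cross_apply] <;> ring

/-- E3d -/
theorem mcurv_cross {U : Set E4} (hU : IsOpen U) {A : E4 → Fin 4 → R3}
    (hA : ContDiffOn ℝ ∞ A U) {y : E4} (hy : y ∈ U) (r t : Fin 3) (l m : Fin 4) :
    mcurv (fun z n => crossMat (A z n)) y r t l m = crossMat (curv A y l m) r t := by
  have hUy := hU.mem_nhds hy
  have hAm : ∀ k, DifferentiableAt ℝ (fun z => A z k) y := fun k =>
    ((contDiffOn_pi.1 hA k).contDiffAt hUy).differentiableAt (by simp)
  have hAc : ∀ k a, DifferentiableAt ℝ (fun z => A z k a) y := fun k a =>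
    differentiableAt_pi.1 (hAm k) a
  -- the derivative of a matrix of this form
  have hpd : ∀ k n : Fin 4, pd k (fun z => crossMat (A z n) r t) y =
      crossMat (pd k (fun z => A z n) y) r t := by
    intro k n
    have h0 : ∀ a, pd k (fun z => A z n) y a = pd k (fun z => A z n a) y := fun a =>
      ph_pd_comp (hAm n) k a
    have hneg : ∀ a, pd k (fun z => -A z n a) y = -pd k (fun z => A z n a) y := by
      intro a
      unfold pd
      rw [show (fun z => -A z n a) = -(fun z => A z n a) from rfl, (hAc n a).hasFDerivAt.neg.fderiv]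
      rfl
    have hz : pd k (fun _ : E4 => (0 : ℝ)) y = 0 := by
      unfold pd
      simp
    simp only [crossMat_apply]
    fin_cases r <;> fin_cases t <;>
      simp [cross_apply, h0, hneg, hz]
  unfold mcurv
  rw [hpd, hpd]
  have hc := congrFun (congrFun (crossMat_comm (A y l) (A y m)) r) t
  rw [hc]
  have hlin : ∀ a b c : R3, crossMat (a - b + c) r t =
      crossMat a r t - crossMat b r t + crossMat c r t := by
    intro a b c
    simp only [crossMat_apply, map_add, map_sub, LinearMap.add_apply, LinearMap.sub_apply,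
      Pi.add_apply, Pi.sub_apply]
  rw [← hlin]
  rfl

end Pool.Agent.Helper56.DE
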